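import Pool.Agent.Helper76.P13.StD

/-!
# Project P13 (levels `13^n`), module Lif: lifting symbols modulo 13 to integral symbols

Adapted from `Pool/Agent/Helper8/P11/M_Lif.lean`.
-/

set_option autoImplicit false

namespace Pool.Agent.Helper8.P13

open Pool.Agent.Helper14.CV (Homog EqC act Tl)
open Pool.Agent.Helper28.WK (SymP Tw evw)
open Pool.Agent.Helper76.P13D
open Pool.Agent.Helper28.P13
open Pool.Agent.Helper84.P13 (Fn13 edge13)
open Pool.Agent.Helper2.P13 (pf13 Rel13 S13Rel S13Ex S13Uni S13Lifp)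

/-- the reduction modulo thirteen -/
private def red (G : ℤ → ℤ → ℤ) : ℤ → ℤ → ZMod 13 := fun p q => ((G p q : ℤ) : ZMod 13)

private theorem red_Sym {r s : ℕ} {G : ℤ → ℤ → ℤ} (h : SymP 13 r s G) : SymP 13 r s (red G) := by
  refine ⟨?_, ?_⟩
  · intro k p q hk hpq
    change ((G (k * p) (k * q) : ℤ) : ZMod 13) = ((G p q : ℤ) : ZMod 13)
    rw [h.1 k p q hk hpq]
  · intro a b c d hdet hb hc
    obtain ⟨e, he⟩ := h.2 a b c d hdet hb hc
    refine ⟨(e : ZMod 13), ?_⟩
    intro p q hpq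
    have h1 := he p q hpq
    have h2 : G (a * p + b * q) (c * p + d * q) = G p q + e := h1
    change ((G (a * p + b * q) (c * p + d * q) : ℤ) : ZMod 13) = ((G p q : ℤ) : ZMod 13) + e
    rw [h2, Int.cast_add]

private theorem red_Tl (l : ℕ) (m : ℤ) (G : ℤ → ℤ → ℤ) : Tl l m (red G) = red (Tl l m G) := by
  funext p q
  change red G (l * p) q + ∑ j ∈ Finset.range l, red G (p + m * j * q) (l * q)
    = ((G (l * p) q + ∑ j ∈ Finset.range l, G (p + m * j * q) (l * q) : ℤ) : ZMod 13)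
  rw [Int.cast_add, Int.cast_sum]
  rfl

private theorem red_Tw (m : ℤ) (ls : List ℕ) (G : ℤ → ℤ → ℤ) :
    Tw m ls (red G) = red (Tw m ls G) := by
  induction ls with
  | nil => rfl
  | cons l ls ih =>
    change Tl l m (Tw m ls (red G)) = red (Tl l m (Tw m ls G))
    rw [ih, red_Tl]

private theorem red_add (G H : ℤ → ℤ → ℤ) : red G + red H = red (G + H) := by
  funext p q
  simp only [Pi.add_apply, red, Int.cast_add]

private theorem red_smul (k : ℤ) (G : ℤ → ℤ → ℤ) : k • red G = red (k • G) := by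
  funext p q
  simp only [Pi.smul_apply, red]
  rw [zsmul_eq_mul, smul_eq_mul, Int.cast_mul]

private theorem red_cO (W : List (ℤ × List ℕ)) (m : ℤ) (G : ℤ → ℤ → ℤ) :
    cO W m (red G) = red (cO W m G) := by
  unfold cO
  induction W with
  | nil =>
    funext p q
    simp [red]
  | cons t W ih =>
    rw [List.map_cons, List.map_cons, List.sum_cons, List.sum_cons, ih, red_Tw, red_smul, red_add]

private theorem red_iter (U : (ℤ → ℤ → ZMod 13) → (ℤ → ℤ → ZMod 13))
    (V : (ℤ → ℤ → ℤ) → (ℤ → ℤ → ℤ)) (h : ∀ G, U (red G) = red (V G)) (i : ℕ) (G : ℤ → ℤ → ℤ) :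
    U^[i] (red G) = red (V^[i] G) := by
  induction i generalizing G with
  | zero => rfl
  | succ i ih =>
    rw [Function.iterate_succ_apply, Function.iterate_succ_apply, h, ih]

private theorem red_ev (m : ℤ) (G : ℤ → ℤ → ℤ) (c i j : ℕ) :
    evM m (red G) c i j = ((evM m G c i j : ℤ) : ZMod 13) := by
  unfold evM
  rw [red_iter (cO VW m) (cO VW m) (red_cO VW m), red_iter (cO UW m) (cO UW m) (red_cO UW m),
    red_cO, Int.cast_sub]
  rfl

private theorem red_pf {q q' : ℕ} (G : ℤ → ℤ → ℤ) (i : Fin 4) (x : ZMod q) (y : ZMod q') :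
    pf13 (red G) i x y = ((pf13 G i x y : ℤ) : ZMod 13) := by
  unfold pf13 edge13
  rw [Int.cast_sub]
  rfl

private theorem sub_pf {q q' : ℕ} (G H : ℤ → ℤ → ZMod 13) (i : Fin 4) (x : ZMod q) (y : ZMod q') :
    pf13 (G + -H) i x y = pf13 G i x y - pf13 H i x y := by
  unfold pf13 edge13
  simp only [Pi.add_apply, Pi.neg_apply]
  abel

/-! `evM` depends only on the class up to constants -/

private theorem eqC_Tw (m : ℤ) {G H : ℤ → ℤ → ZMod 13} (h : EqC G H) (ls : List ℕ)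
    (hls : ∀ l ∈ ls, 0 < l) : EqC (Tw m ls G) (Tw m ls H) := by
  induction ls with
  | nil => exact h
  | cons l ls ih =>
    have h1 := ih fun k hk => hls k (List.mem_cons_of_mem _ hk)
    exact h1.Tl (hls l List.mem_cons_self) m

private theorem eqC_add {G H G' H' : ℤ → ℤ → ZMod 13} (h : EqC G H) (h' : EqC G' H') :
    EqC (G + G') (H + H') := by
  obtain ⟨c, hc⟩ := h
  obtain ⟨c', hc'⟩ := h'
  refine ⟨c + c', fun p q hpq => ?_⟩
  simp only [Pi.add_apply]
  rw [hc p q hpq, hc' p q hpq]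
  ring

private theorem eqC_zsmul {G H : ℤ → ℤ → ZMod 13} (k : ℤ) (h : EqC G H) :
    EqC (k • G) (k • H) := by
  obtain ⟨c, hc⟩ := h
  refine ⟨k • c, fun p q hpq => ?_⟩
  simp only [Pi.smul_apply]
  rw [hc p q hpq, smul_add]

private theorem eqC_cO (m : ℤ) {G H : ℤ → ℤ → ZMod 13} (h : EqC G H) (W : List (ℤ × List ℕ))
    (hW : ∀ t ∈ W, ∀ l ∈ t.2, 0 < l) : EqC (cO W m G) (cO W m H) := by
  unfold cO
  induction W with
  | nil => exact ⟨0, fun p q _ => by simp⟩
  | cons t W ih =>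
    rw [List.map_cons, List.map_cons, List.sum_cons, List.sum_cons]
    exact eqC_add (eqC_zsmul _ (eqC_Tw m h t.2 (hW t List.mem_cons_self)))
      (ih fun k hk => hW k (List.mem_cons_of_mem _ hk))

private theorem posU : ∀ t ∈ UW, ∀ l ∈ t.2, 0 < l := by decide

private theorem posV : ∀ t ∈ VW, ∀ l ∈ t.2, 0 < l := by decide

private theorem posO (c : ℕ) : ∀ t ∈ OW c, ∀ l ∈ t.2, 0 < l := by
  unfold OW
  split <;> decide

private theorem eqC_iter (U : (ℤ → ℤ → ZMod 13) → (ℤ → ℤ → ZMod 13))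
    (hU : ∀ G H, EqC G H → EqC (U G) (U H)) (i : ℕ) {G H : ℤ → ℤ → ZMod 13} (h : EqC G H) :
    EqC (U^[i] G) (U^[i] H) := by
  induction i generalizing G H with
  | zero => exact h
  | succ i ih =>
    rw [Function.iterate_succ_apply, Function.iterate_succ_apply]
    exact ih (hU G H h)

private theorem evM_congr (m : ℤ) {G H : ℤ → ℤ → ZMod 13} (h : EqC G H) (c i j : ℕ) :
    evM m G c i j = evM m H c i j := by
  obtain ⟨e, he⟩ := eqC_cO m (eqC_iter (cO UW m) (fun _ _ h => eqC_cO m h UW posU) i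
    (eqC_iter (cO VW m) (fun _ _ h => eqC_cO m h VW posV) j h)) (OW c) (posO c)
  unfold evM
  rw [he 1 0 (Or.inl one_ne_zero), he 0 1 (Or.inr one_ne_zero)]
  ring

/-- MODULE Lif. -/
theorem hLif (hr : S13Rel) (hp : S13Lifp) (hx : S13Ex) (hu : S13Uni) : TLif := by
  intro r s g hg
  have h1 := hr (ZMod 13) _ r s g hg
  obtain ⟨F, hF, hF1⟩ := hp r s _ h1
  obtain ⟨G, hG, hG1⟩ := hx ℤ _ r s F hF
  refine ⟨G, hG, ?_⟩
  have h2 : SymP 13 r (s + 1) (red G + -g) :=
    Pool.Agent.Helper14.W5.SymP.add (red_Sym hG) (Pool.Agent.Helper14.W5.SymP.neg hg)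
  have h3 : EqC (red G + -g) 0 := by
    refine hu (ZMod 13) _ r s _ h2 fun i => ?_
    funext x y
    rw [sub_pf, red_pf, hG1, hF1, sub_self]
    rfl
  have h4 : EqC (red G) g := by
    obtain ⟨c, hc⟩ := h3
    refine ⟨c, fun p q hpq => ?_⟩
    have h5 := hc p q hpq
    simp only [Pi.add_apply, Pi.neg_apply, Pi.zero_apply, zero_add] at h5
    rw [← h5]
    abel
  intro c i j
  rw [← red_ev]
  exact evM_congr _ h4 c i j

end Pool.Agent.Helper8.P13
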