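import Pool.Agent.Helper76.P13.StC

/-!
# Levels `13^n`, module DIMO: dimension of subO (odd exponents)

Adapted from `Pool/Agent/Helper73/P11/M_DIMO.lean` and `Pool/Agent/Helper55/TK7/M_DIMOK7.lean`.
-/

set_option autoImplicit false

namespace Pool.Agent.Helper8.P13

open Pool.Agent.Helper76.P13

section lin

variable {W W' : Type} [AddCommGroup W] [Module ℂ W] [FiniteDimensional ℂ W] [AddCommGroup W']
  [Module ℂ W']

private theorem rn (f : W →ₗ[ℂ] W') (V : Submodule ℂ W) :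
    Module.finrank ℂ (V.map f) + Module.finrank ℂ ↥(V ⊓ LinearMap.ker f) =
      Module.finrank ℂ V := by
  have h := LinearMap.finrank_range_add_finrank_ker (f.domRestrict V)
  rw [LinearMap.range_domRestrict, LinearMap.ker_domRestrict] at h
  have h2 : Module.finrank ℂ ↥((LinearMap.ker f).comap V.subtype) =
      Module.finrank ℂ ↥(V ⊓ LinearMap.ker f) := by
    rw [← Submodule.map_comap_subtype, Submodule.finrank_map_subtype_eq]
  rw [h2] at h
  exact h

end lin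

section lin2

variable {W W' : Type} [AddCommGroup W] [Module ℂ W] [FiniteDimensional ℂ W] [AddCommGroup W']
  [Module ℂ W'] [FiniteDimensional ℂ W']

private theorem fr_prod (V : Submodule ℂ W) (V' : Submodule ℂ W') :
    Module.finrank ℂ ↥(V.prod V') = Module.finrank ℂ V + Module.finrank ℂ V' := by
  have h1 : V.prod V' = LinearMap.range (V.subtype.prodMap V'.subtype) := by
    rw [LinearMap.range_prodMap, Submodule.range_subtype, Submodule.range_subtype]
  rw [h1, LinearMap.finrank_range_of_inj, Module.finrank_prod]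
  rintro ⟨a, b⟩ ⟨a', b'⟩ h
  simp only [LinearMap.prodMap_apply, Submodule.subtype_apply, Prod.mk.injEq,
    SetLike.coe_eq_coe] at h
  rw [h.1, h.2]

end lin2

private theorem pw0 {m : ℕ} (hm : 1 ≤ m) : (13 : ZMod (13 ^ m)) * 13 ^ (m - 1) = 0 := by
  rw [← pow_succ', Nat.sub_add_cancel hm]
  have h3 := ZMod.natCast_self (13 ^ m)
  push_cast at h3
  exact h3

private theorem red {m : ℕ} (hm : 1 ≤ m) (t : ℤ) :
    (t : ZMod (13 ^ m)) * 13 ^ (m - 1) = ((t : ZMod 13).val : ZMod (13 ^ m)) * 13 ^ (m - 1) := by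
  have h1 : ((t : ZMod 13).val : ℤ) = t % 13 := by
    rw [ZMod.val_intCast]
    norm_num
  have h2 : (((t : ZMod 13).val : ℕ) : ZMod (13 ^ m)) = ((t % 13 : ℤ) : ZMod (13 ^ m)) := by
    rw [← h1]
    push_cast
    rfl
  rw [h2]
  have h3 : t = t % 13 + 13 * (t / 13) := (Int.emod_add_mul_ediv t 13).symm
  have h4 : (t : ZMod (13 ^ m)) = ((t % 13 : ℤ) : ZMod (13 ^ m)) + 13 * ((t / 13 : ℤ) : ZMod (13 ^ m)) := by
    conv_lhs => rw [h3]
    push_cast
    ring
  rw [h4]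
  linear_combination ((t / 13 : ℤ) : ZMod (13 ^ m)) * pw0 hm

private theorem sum_zmod (g : ℕ → ℂ) :
    ∑ i ∈ Finset.range 13, g i = ∑ z : ZMod 13, g z.val := by
  have : ∀ h : ZMod 13 → ℂ, ∑ z : ZMod 13, h z = ∑ i : Fin 13, h i := fun h => rfl
  rw [Finset.sum_range, this]
  rfl

private theorem sum_s {m : ℕ} (hm : 1 ≤ m) (s : ℤ) (hs : ¬ (13 : ℤ) ∣ s)
    (g : ZMod (13 ^ m) → ℂ) :
    ∑ i ∈ Finset.range 13, g (s * ((i : ZMod (13 ^ m)) * 13 ^ (m - 1))) =
      ∑ i ∈ Finset.range 13, g ((i : ZMod (13 ^ m)) * 13 ^ (m - 1)) := by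
  have hf : Fact (Nat.Prime 13) := ⟨by norm_num⟩
  have hs0 : (s : ZMod 13) ≠ 0 := by
    intro h
    exact hs ((ZMod.intCast_zmod_eq_zero_iff_dvd s 13).1 h)
  rw [sum_zmod (fun i => g (s * ((i : ZMod (13 ^ m)) * 13 ^ (m - 1)))),
    sum_zmod (fun i => g ((i : ZMod (13 ^ m)) * 13 ^ (m - 1)))]
  refine Fintype.sum_equiv (Equiv.mulLeft₀ (s : ZMod 13) hs0) _ _ fun z => ?_
  have h1 := red hm (s * (z.val : ℤ))
  have h2 : ((s * (z.val : ℤ) : ℤ) : ZMod 13) = (s : ZMod 13) * z := by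
    push_cast
    rw [ZMod.natCast_zmod_val]
  rw [h2] at h1
  change g (s * ((z.val : ZMod (13 ^ m)) * 13 ^ (m - 1))) =
    g ((((s : ZMod 13) * z).val : ZMod (13 ^ m)) * 13 ^ (m - 1))
  rw [← h1]
  congr 1
  push_cast
  ring

private theorem anti_s {m : ℕ} (hm : 1 ≤ m) {F : Pt m → ℂ} (hF : F ∈ anti13 m) (s : ℤ)
    (hs : ¬ (13 : ℤ) ∣ s) (x y : ZMod (13 ^ m)) :
    ∑ i ∈ Finset.range 13, F (x + s * (i * 13 ^ (m - 1)), y) = 0 ∧
      ∑ i ∈ Finset.range 13, F (x, y + s * (i * 13 ^ (m - 1))) = 0 := by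
  obtain ⟨h1, h2⟩ := hF (x, y)
  constructor
  · rw [sum_s hm s hs (fun t => F (x + t, y))]
    exact h1
  · rw [sum_s hm s hs (fun t => F (x, y + t))]
    exact h2

private theorem dv_step {m : ℕ} (hm : 1 ≤ m) {s : ℤ} {φ : ZMod (13 ^ m) → ZMod (13 ^ m)}
    (h : Dv s φ) (x : ZMod (13 ^ m)) (i : ℕ) :
    φ (x + i * 13 ^ (m - 1)) = φ x + s * (i * 13 ^ (m - 1)) := by
  have h1 := h (m - 1) (x + i * 13 ^ (m - 1)) x ⟨i, by ring⟩
  have h2 : (13 : ZMod (13 ^ m)) ^ (m - 1 + 1) = 0 := by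
    rw [Nat.sub_add_cancel hm]
    have h3 := ZMod.natCast_self (13 ^ m)
    push_cast at h3
    exact h3
  rw [h2, zero_dvd_iff] at h1
  linear_combination h1

private theorem anti_comp {m n : ℕ} (hm : 1 ≤ m) {r : Pt m → Pt m} (hr : Ty n r) {F : Pt m → ℂ}
    (hF : F ∈ anti13 m) : (fun p => F (r p)) ∈ anti13 m := by
  rcases hr with ⟨_, s, s', φ, φ', hs, _, hs', _, hφ, hφ', hr⟩ | ⟨_, s, s', ψ, ψ', hs, hs', hψ, hψ', hr⟩
  · intro p
    simp only [hr, dv_step hm hφ, dv_step hm hφ']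
    exact ⟨(anti_s hm hF s hs (φ p.1) (φ' p.2)).1, (anti_s hm hF s' hs' (φ p.1) (φ' p.2)).2⟩
  · intro p
    simp only [hr, dv_step hm hψ, dv_step hm hψ']
    exact ⟨(anti_s hm hF s' hs' (ψ p.2) (ψ' p.1)).2, (anti_s hm hF s hs (ψ p.2) (ψ' p.1)).1⟩

/-- half of the sum over a dihedral group of order six -/
private def D3 {m : ℕ} (r w : Pt m → Pt m) (F : Pt m → ℂ) (p : Pt m) : ℂ :=
  F p + F (r (w p)) + F (w (r p))

private theorem D3_anti {m : ℕ} (hm : 1 ≤ m) {r w : Pt m → Pt m} (ht : DT r w) {F : Pt m → ℂ}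
    (hF : F ∈ anti13 m) : (fun p => D3 r w F p) ∈ anti13 m := by
  obtain ⟨-, -, -, h1, h2, -⟩ := ht
  have e : (fun p => D3 r w F p) = F + (fun p => F (r (w p))) + (fun p => F (w (r p))) := by
    funext p
    simp only [D3, Pi.add_apply]
  rw [e]
  exact Submodule.add_mem _ (Submodule.add_mem _ hF (anti_comp hm h1 hF)) (anti_comp hm h2 hF)

private theorem D3_r {m : ℕ} {r w : Pt m → Pt m} (h : Dh r w) {F : Pt m → ℂ}
    (hF : ∀ p, F (r p) = F p) (p : Pt m) : D3 r w F (r p) = D3 r w F p ∧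
      D3 r w F (w p) = D3 r w F p := by
  obtain ⟨h1, h2, h3⟩ := h
  have k : F (w (r (w p))) = F (w (r p)) := by rw [← h3 p, hF]
  unfold D3
  constructor
  · simp only [h1, hF]
    ring
  · simp only [h2, hF]
    rw [k]
    ring

private theorem D3_w {m : ℕ} {r w : Pt m → Pt m} (h : Dh r w) {F : Pt m → ℂ}
    (hF : ∀ p, F (w p) = F p) (p : Pt m) : D3 r w F (r p) = D3 r w F p ∧
      D3 r w F (w p) = D3 r w F p := by
  obtain ⟨h1, h2, h3⟩ := h
  have k : F (r (w (r p))) = F (r (w p)) := by rw [h3 p, hF]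
  unfold D3
  constructor
  · simp only [h1, hF]
    rw [k]
    ring
  · simp only [h2, hF]
    ring

/-- the sum over the dihedral group -/
private theorem D3_sum {m : ℕ} {r w : Pt m → Pt m} (h : Dh r w) {u v φ : Pt m → ℂ}
    (hx : ∀ q, u q - v q = (6 : ℂ)⁻¹ * φ q) (hr : ∀ q, φ (r q) = φ q) (hw : ∀ q, φ (w q) = φ q)
    (p : Pt m) :
    D3 r w (fun q => u q + u (w q)) p - D3 r w (fun q => v q + v (r q)) p = φ p := by
  obtain ⟨h1, h2, h3⟩ := h
  have x1 := hx p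
  have x2 := hx (r (w p))
  have x3 := hx (w (r p))
  have x4 := hx (r p)
  have x5 := hx (w p)
  have x6 := hx (w (r (w p)))
  simp only [hr, hw] at x2 x3 x4 x5 x6
  unfold D3
  simp only [h1, h2, h3]
  linear_combination x1 + x2 + x3 + x4 + x5 + x6

/-- the components of the map -/
private def K1 (m : ℕ) :
    (((Pt m → ℂ) × (Pt m → ℂ)) × (Pt m → ℂ)) →ₗ[ℂ] (Pt m → ℂ) where
  toFun F p := (F.2 p - F.1.1 p) + (F.2 (sw (c3 p)) - F.1.1 (sw (c3 p))) +
    (F.2 (c3 (sw p)) - F.1.1 (c3 (sw p)))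
  map_add' F F' := by
    funext p; simp only [Prod.fst_add, Prod.snd_add, Pi.add_apply]; ring
  map_smul' c F := by
    funext p
    simp only [Prod.smul_fst, Prod.smul_snd, Pi.smul_apply, smul_eq_mul, RingHom.id_apply]
    ring

private def K2 (m : ℕ) :
    (((Pt m → ℂ) × (Pt m → ℂ)) × (Pt m → ℂ)) →ₗ[ℂ] (Pt m → ℂ) where
  toFun F p := (F.2 p - F.1.2 p) + (F.2 (c3 (cO p)) - F.1.2 (c3 (cO p)))
  map_add' F F' := by funext p; simp only [Prod.fst_add, Prod.snd_add, Pi.add_apply]; ring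
  map_smul' c F := by
    funext p
    simp only [Prod.smul_fst, Prod.smul_snd, Pi.smul_apply, smul_eq_mul, RingHom.id_apply]
    ring

private theorem K1_apply {m : ℕ} (F : ((Pt m → ℂ) × (Pt m → ℂ)) × (Pt m → ℂ)) (p : Pt m) :
    K1 m F p = (F.2 p - F.1.1 p) + (F.2 (sw (c3 p)) - F.1.1 (sw (c3 p))) +
      (F.2 (c3 (sw p)) - F.1.1 (c3 (sw p))) := rfl

private theorem K1_D {m : ℕ} (f l e : Pt m → ℂ) (p : Pt m) :
    K1 m ((f, l), e) p = D3 sw c3 e p - D3 sw c3 f p := by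
  rw [K1_apply]
  unfold D3
  ring

private theorem K2_apply {m : ℕ} (F : ((Pt m → ℂ) × (Pt m → ℂ)) × (Pt m → ℂ)) (p : Pt m) :
    K2 m F p = (F.2 p - F.1.2 p) + (F.2 (c3 (cO p)) - F.1.2 (c3 (cO p))) := rfl

/-- **Module DIMO.** -/
theorem hDimO : StHDimO := by
  intro ht hk hs m hm
  obtain ⟨⟨a1, a2, a3, a4⟩, ⟨b1, b2, b3, b4⟩, d, ⟨k1, k2⟩, -⟩ := ht m
  obtain ⟨-, q2, q3, q4⟩ := hk m hm
  have g1 := d.1
  have t3 := d.2.2.1
  have eF := q3 ng sw 0 1 1 1 1 a1 a2 a3 a4 (Or.inl rfl) (Or.inl rfl)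
  have eL := q3 (dR 0) cO 0 1 1 1 1 b1 b2 b3 b4 (Or.inl rfl) (Or.inl rfl)
  have eB := q3 c3 cO 1 1 0 1 1 k1 t3 b3 k2 (Or.inl rfl) (Or.inl rfl)
  have eS := q2 c3 1 k1.1 t3 (Or.inl rfl)
  have eD := q4 sw c3 d
  have p1 : (((1 : ℤ) : ℂ)) = 1 := by push_cast; rfl
  rw [p1] at eF eL eB eS
  set Vf := inv13 (m := m) ng sw 1 1 with hVf
  set Vl := inv13 (m := m) (dR 0) cO 1 1 with hVl
  set VB := inv13 (m := m) c3 cO 1 1 with hVB
  set VD := inv13 (m := m) sw c3 1 1 with hVD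
  set Vs := inv1 (m := m) c3 1 with hVs
  set Q : (((Pt m → ℂ) × (Pt m → ℂ)) × (Pt m → ℂ)) →ₗ[ℂ] ((Pt m → ℂ) × (Pt m → ℂ)) :=
    LinearMap.prod (K1 m) (K2 m) with hQ
  have hQa : ∀ F, Q F = (K1 m F, K2 m F) := fun _ => rfl
  have hmap : ((Vf.prod Vl).prod Vs).map Q = VD.prod VB := by
    apply le_antisymm
    · rintro _ ⟨⟨⟨f, l⟩, e⟩, ⟨⟨⟨hf, hf'⟩, ⟨hl, hl'⟩⟩, ⟨he, he'⟩⟩, rfl⟩
      dsimp only at hf hf' hl hl' he he'
      have f1 : ∀ p, f (sw p) = f p := fun p => by rw [(hf' p).2, one_mul]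
      have l1 : ∀ p, l (cO p) = l p := fun p => by rw [(hl' p).2, one_mul]
      have e1 : ∀ p, e (c3 p) = e p := fun p => by rw [he' p, one_mul]
      rw [hQa]
      refine ⟨⟨?_, fun p => ?_⟩, ⟨?_, fun p => ⟨?_, ?_⟩⟩⟩
      · have h4 : K1 m ((f, l), e) = (fun p => D3 sw c3 e p) - (fun p => D3 sw c3 f p) := by
          funext p
          simp only [K1_D, Pi.sub_apply]
        change K1 m ((f, l), e) ∈ anti13 m
        rw [h4]
        exact Submodule.sub_mem _ (D3_anti hm d he) (D3_anti hm d hf)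
      · change K1 m ((f, l), e) (sw p) = 1 * K1 m ((f, l), e) p ∧
          K1 m ((f, l), e) (c3 p) = 1 * K1 m ((f, l), e) p
        simp only [K1_D]
        rw [(D3_w g1 e1 p).1, (D3_w g1 e1 p).2, (D3_r g1 f1 p).1, (D3_r g1 f1 p).2, one_mul]
        exact ⟨rfl, rfl⟩
      · have h4 : K2 m ((f, l), e) = e - l + (fun p => e (c3 (cO p))) - (fun p => l (c3 (cO p))) := by
          funext p
          simp only [K2_apply, Pi.add_apply, Pi.sub_apply]
          ring
        change K2 m ((f, l), e) ∈ anti13 m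
        rw [h4]
        exact Submodule.sub_mem _ (Submodule.add_mem _ (Submodule.sub_mem _ he hl)
          (anti_comp hm k2 he)) (anti_comp hm k2 hl)
      · change K2 m ((f, l), e) (c3 p) = 1 * K2 m ((f, l), e) p
        simp only [K2_apply]
        rw [k1.2.2 (c3 p), k1.1 p, l1 p, k1.2.2 p, l1 (c3 p), ← k1.2.2 p, e1 p, e1 (cO p)]
        ring
      · change K2 m ((f, l), e) (cO p) = 1 * K2 m ((f, l), e) p
        simp only [K2_apply]
        rw [k1.2.1 p, l1 p, k1.2.2 p, l1 (c3 p), ← k1.2.2 p, e1 p, e1 (cO p)]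
        ring
    · rintro ⟨φ, ψ⟩ ⟨hφ, hψ⟩
      simp only at hφ hψ
      obtain ⟨f0, hf0, l0, hl0, hfn0, hld0, hfl0⟩ :=
        hs 0 m hm ((6 : ℂ)⁻¹ • φ) (Submodule.smul_mem _ _ hφ.1)
      obtain ⟨f1, hf1, l1, hl1, hfn1, hld1, hfl1⟩ :=
        hs 0 m hm ((4 : ℂ)⁻¹ • ψ) (Submodule.smul_mem _ _ hψ.1)
      have hv : f1 - f0 ∈ anti13 m := Submodule.sub_mem _ hf1 hf0
      have hw : l0 - l1 ∈ anti13 m := Submodule.sub_mem _ hl0 hl1
      have hu : l0 + f1 ∈ anti13 m := Submodule.add_mem _ hl0 hf1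
      refine ⟨((((f1 - f0) + fun p => (f1 - f0) (sw p)),
        ((l0 - l1) + fun p => (l0 - l1) (cO p))),
        (l0 + f1) + fun p => (l0 + f1) (c3 p)), ⟨⟨⟨?_, fun p => ⟨?_, ?_⟩⟩, ⟨?_, fun p => ⟨?_, ?_⟩⟩⟩,
        ⟨?_, fun p => ?_⟩⟩, ?_⟩
      · exact Submodule.add_mem _ hv (anti_comp hm a3 hv)
      · simp only [Pi.sub_apply, Pi.add_apply]
        rw [← a1.2.2 p, hfn0 p, hfn1 p, hfn0 (sw p), hfn1 (sw p)]
        ring
      · simp only [Pi.sub_apply, Pi.add_apply]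
        rw [a1.2.1 p]
        ring
      · exact Submodule.add_mem _ hw (anti_comp hm b3 hw)
      · simp only [Pi.sub_apply, Pi.add_apply]
        rw [← b1.2.2 p, hld0 p, hld1 p, hld0 (cO p), hld1 (cO p)]
        ring
      · simp only [Pi.sub_apply, Pi.add_apply]
        rw [b1.2.1 p]
        ring
      · exact Submodule.add_mem _ hu (anti_comp hm t3 hu)
      · simp only [Pi.add_apply]
        rw [k1.1 p]
        ring
      · rw [hQa, Prod.mk.injEq]
        constructor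
        · funext p
          rw [K1_D]
          have x := D3_sum g1 (u := l0 + f1) (v := f1 - f0) (φ := φ) (by
            intro q
            have x1 := hfl0 q
            simp only [Pi.smul_apply, smul_eq_mul] at x1
            simp only [Pi.sub_apply, Pi.add_apply]
            linear_combination x1) (fun q => by rw [(hφ.2 q).1, one_mul])
            (fun q => by rw [(hφ.2 q).2, one_mul]) p
          exact x
        · funext p
          have x1 := hfl1 p
          have x2 := hfl1 (c3 p)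
          have x3 := hfl1 (cO p)
          have x4 := hfl1 (c3 (cO p))
          simp only [Pi.smul_apply, smul_eq_mul] at x1 x2 x3 x4
          rw [(hψ.2 p).1] at x2
          rw [(hψ.2 p).2] at x3
          rw [(hψ.2 (cO p)).1, (hψ.2 p).2] at x4
          have y1 : c3 (c3 (cO p)) = cO p := k1.1 (cO p)
          have y2 : cO (c3 (cO p)) = c3 p := by rw [← k1.2.2 (cO p), k1.2.1 p]
          rw [K2_apply]
          simp only [Pi.sub_apply, Pi.add_apply]
          rw [y1, y2]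
          linear_combination x1 + x2 + x3 + x4
  have hker : (Vf.prod Vl).prod Vs ⊓ LinearMap.ker Q = subO m := by
    ext F
    constructor
    · rintro ⟨⟨⟨h1, h2⟩, h3⟩, h5⟩
      rw [SetLike.mem_coe, LinearMap.mem_ker, hQa, Prod.mk_eq_zero] at h5
      refine ⟨h1, h2, h3, fun p => ⟨?_, ?_⟩⟩
      · have := congrFun h5.1 p
        rw [K1_apply, Pi.zero_apply] at this
        exact this
      · have := congrFun h5.2 p
        rw [K2_apply, Pi.zero_apply] at this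
        exact this
    · rintro ⟨h1, h2, h3, h5⟩
      refine ⟨⟨⟨h1, h2⟩, h3⟩, ?_⟩
      rw [SetLike.mem_coe, LinearMap.mem_ker, hQa, Prod.mk_eq_zero]
      constructor
      · funext p
        rw [K1_apply, Pi.zero_apply]
        exact (h5 p).1
      · funext p
        rw [K2_apply, Pi.zero_apply]
        exact (h5 p).2
  have h6 := rn Q ((Vf.prod Vl).prod Vs)
  rw [hmap, hker, fr_prod, fr_prod, fr_prod] at h6
  zify at h6 eD ⊢
  push_cast at eF eL eB eS
  linarith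

end Pool.Agent.Helper8.P13
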